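import Pool.Agent.H92.Q11

open MeasureTheory Filter Pool.Agent.H92.Q

namespace Pool.Agent.Results.MP_0fb79d_an.Second

/-- For every N at least 2 and every q in (1, 2) there is a bounded connected open set whose first
q-eigenvalue is isolated and whose second q-eigenvalue is strictly below the second
Lusternik-Schnirelmann value. -/
theorem result : ∀ N : ℕ, 2 ≤ N → ∀ q : ℝ, 1 < q → q < 2 →
    ∃ Ω : Set (E N), IsOpen Ω ∧ Bornology.IsBounded Ω ∧ IsConnected Ω ∧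
      ¬ AccPt (lambda1 Ω q) (principal (QSpec Ω q)) ∧
      (∃ lam ∈ QSpec Ω q, lambda1 Ω q < lam) ∧
      ENNReal.ofReal (lambda2 Ω q) < LS Ω q 2 := by
  intro N hN q q1 q2
  obtain ⟨Ω, a, b, c, d, lam, e, f, g⟩ := second hN q1 q2
  rw [← spec_eq, ← lam1_eq] at *
  refine ⟨Ω, a, b, c, d, ⟨lam, e, f⟩, lt_of_le_of_lt (ENNReal.ofReal_le_ofReal ?_) g⟩
  exact csInf_le ⟨lambda1 Ω q, fun x hx => hx.2.le⟩ ⟨e, f⟩

end Pool.Agent.Results.MP_0fb79d_an.Second
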